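import Pool.Agent.W945.Pw.Stm

set_option autoImplicit false

namespace Pool.Agent.W337.Pw.FIELD

open Pool.Agent.W945.Pw

theorem field_part (n m : ℕ) (hm : 1 ≤ m) (hn : n ≤ 2 ^ m) :
    ∃ (F : Type) (_ : Field F) (_ : Fintype F) (lam : F →+ ZMod 2) (pt : Fin n → F),
      Fintype.card F = 2 ^ m ∧ lam ≠ 0 ∧ Function.Injective pt := by
  have : Fact (Nat.Prime 2) := ⟨Nat.prime_two⟩
  let F := GaloisField 2 m
  let _ : Fintype F := Fintype.ofFinite F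
  have hcard : Fintype.card F = 2 ^ m := by
    rw [← Nat.card_eq_fintype_card]
    exact GaloisField.card 2 m (by omega)
  have h1 : (1 : F) ≠ 0 := one_ne_zero
  have hex : ∃ f : Module.Dual (ZMod 2) F, f (1 : F) ≠ 0 := by
    by_contra hcon
    push Not at hcon
    exact h1 ((Module.forall_dual_apply_eq_zero_iff (ZMod 2) (1 : F)).1 hcon)
  obtain ⟨f, hf⟩ := hex
  have hemb : Nonempty (Fin n ↪ F) := by
    apply Function.Embedding.nonempty_of_card_le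
    rw [hcard, Fintype.card_fin]
    exact hn
  obtain ⟨g⟩ := hemb
  refine ⟨F, inferInstance, inferInstance, f.toAddMonoidHom, g, hcard, ?_, g.injective⟩
  intro h0
  apply hf
  have := DFunLike.congr_fun h0 (1 : F)
  simpa using this

theorem bound_part (d r N : ℕ) (hd : 2 ≤ d) :
    2 * (r : ℝ) * (N : ℝ) ^ (1 - 1 / (d : ℝ)) /
        (1 - (1 - 1 / (4 * (d : ℝ))) ^ (1 - 1 / (d : ℝ))) ≤
      8 * (d : ℝ) ^ 2 / (d - 1) * r * (N : ℝ) ^ (1 - 1 / (d : ℝ)) := by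
  have hd2 : (2 : ℝ) ≤ d := by exact_mod_cast hd
  have hdpos : (0 : ℝ) < d := by linarith
  have hg0 : (0 : ℝ) ≤ 1 - 1 / (d : ℝ) := by
    rw [sub_nonneg, div_le_one hdpos]
    linarith
  have hg1 : 1 - 1 / (d : ℝ) ≤ 1 := by
    have : (0 : ℝ) ≤ 1 / (d : ℝ) := by positivity
    linarith
  have hs : (-1 : ℝ) ≤ -(1 / (4 * (d : ℝ))) := by
    have : 1 / (4 * (d : ℝ)) ≤ 1 := by
      rw [div_le_one (by positivity)]
      linarith
    linarith
  have hB := rpow_one_add_le_one_add_mul_self hs hg0 hg1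
  have hB' : (1 - 1 / (4 * (d : ℝ))) ^ (1 - 1 / (d : ℝ)) ≤
      1 - (1 - 1 / (d : ℝ)) / (4 * d) := by
    have e1 : 1 + -(1 / (4 * (d : ℝ))) = 1 - 1 / (4 * (d : ℝ)) := by ring
    rw [e1] at hB
    refine hB.trans (le_of_eq ?_)
    field_simp
    ring
  have hd1 : (0 : ℝ) < (d : ℝ) - 1 := by linarith
  have hq : 0 < (1 - 1 / (d : ℝ)) / (4 * d) := by
    have : 0 < 1 - 1 / (d : ℝ) := by
      rw [sub_pos, div_lt_one hdpos]
      linarith
    positivity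
  have hden : (1 - 1 / (d : ℝ)) / (4 * d) ≤
      1 - (1 - 1 / (4 * (d : ℝ))) ^ (1 - 1 / (d : ℝ)) := by linarith
  have hnum : 0 ≤ 2 * (r : ℝ) * (N : ℝ) ^ (1 - 1 / (d : ℝ)) := by positivity
  calc 2 * (r : ℝ) * (N : ℝ) ^ (1 - 1 / (d : ℝ)) /
        (1 - (1 - 1 / (4 * (d : ℝ))) ^ (1 - 1 / (d : ℝ)))
      ≤ 2 * (r : ℝ) * (N : ℝ) ^ (1 - 1 / (d : ℝ)) / ((1 - 1 / (d : ℝ)) / (4 * d)) :=
        div_le_div_of_nonneg_left hnum hq hden
    _ = 8 * (d : ℝ) ^ 2 / (d - 1) * r * (N : ℝ) ^ (1 - 1 / (d : ℝ)) := by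
        have h1 : (d : ℝ) ≠ 0 := hdpos.ne'
        have h2 : (d : ℝ) - 1 ≠ 0 := hd1.ne'
        have h3 : (1 - 1 / (d : ℝ)) / (4 * d) = ((d : ℝ) - 1) / (4 * (d : ℝ) ^ 2) := by
          field_simp
        rw [h3]
        field_simp
        ring

theorem main : FIELD.Stm :=
  ⟨fun n m hm hn => field_part n m hm hn, fun d r N hd => bound_part d r N hd⟩

end Pool.Agent.W337.Pw.FIELD
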